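import Pool.Agent.Q293.HF.Fin

/-!
A projective family over `ℂ` whose total space is a complex threefold (a closed complex submanifold
of `ℂ` times a projective space), all of whose fibres over `ℂ ∖ {0}` are smooth and connected, and
which is an integral homology fibre bundle, although it is not smooth (a submersion) over `0`.

The family: `X = (ℂˣ × Y) / ℤ`, `Y = {(t, [u : x : y]) : y² u = x³ + t u³}`, with `1 ∈ ℤ` acting by
`(z, t, [u : x : y]) ↦ (z / 2, t, [u : ω x : - y])`. The fibres over `t ≠ 0` are bielliptic surfaces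
`(E' × C_t) / (ℤ/6)`, the fibre over `0` has a curve of transversal cusps.

Project HF of helper293, with helpers 13, 94, 110, 129, 160, 162, 164, 176, 192, 204, 210, 217, 222,
224, 230, 238, 252, 259, 299; the definitions used in the statement are in
`Pool/Agent/Helper922/HB/Defs.lean`.
-/

set_option autoImplicit false

open scoped LinearAlgebra.Projectivization
open Pool.Agent.Helper922.HB

namespace Pool.Agent.Results.MP_ed9921_ag.BiellipticCusp

theorem result : ∃ (n : ℕ) (X : Set (ℂ × ℙ ℂ (Fin 3 × Fin n → ℂ))), IsClosedSubmanifold 3 X ∧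
    (∀ t : ℂ, IsPathConnected {p : X | p.1.1 = t}) ∧
    (∀ p ∈ X, p.1 ≠ 0 → ProjSubmersiveAt 3 X p) ∧
    IsZHomologyFiberBundle (fun p : X => p.1.1) ∧
    ∃ p ∈ X, p.1 = 0 ∧ ∀ (P : LocalParam 3 X) (v : Fin 3 → ℂ) (hv : v ∈ P.V), P.pt v hv = p →
      ∀ k : Fin 3 → ℂ, fderiv ℂ P.a v k = 0 :=
  Pool.Agent.Q293.HF.fin_all

end Pool.Agent.Results.MP_ed9921_ag.BiellipticCusp
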